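import Pool.Agent.H523.ZG.Stm

set_option autoImplicit false

/-! # The kernel identity and the sign of its coefficients -/

namespace Pool.Agent.H261.ZG

open Finset
open Pool.Agent.H523.ZG

theorem sum_shift (f : ℤ → ℝ) (N N' N'' c : ℤ) (hf : ∀ k, N < |k| → f k = 0) (h1 : N + |c| ≤ N')
    (h2 : N ≤ N'') : ∑ k ∈ Icc (-N') N', f (k + c) = ∑ k ∈ Icc (-N'') N'', f k := by
  have e1 : ∑' k : ℤ, f (k + c) = ∑ k ∈ Icc (-N') N', f (k + c) := by
    refine tsum_eq_sum fun k hk => hf _ ?_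
    rw [mem_Icc, ← abs_le, not_le] at hk
    have h3 : |k| ≤ |k + c| + |c| := by
      have := abs_sub (k + c) c
      simpa using this
    omega
  have e2 : ∑' k : ℤ, f k = ∑ k ∈ Icc (-N'') N'', f k := by
    refine tsum_eq_sum fun k hk => hf _ ?_
    rw [mem_Icc, ← abs_le, not_le] at hk
    omega
  rw [← e1, ← e2]
  exact (Equiv.addRight c).tsum_eq f

theorem gg_zero {d : ℕ} (hd : 1 ≤ d) {j : ℤ} (h : (d : ℤ) ≤ |j|) : gg d j = 0 := by
  unfold gg
  split_ifs with h1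
  · have h2 : |j| = d := le_antisymm h1 h
    have hd0 : (d : ℝ) ≠ 0 := by
      have : (0 : ℝ) < d := by exact_mod_cast hd
      exact this.ne'
    have h3 : ((j : ℝ) / d) ^ 2 = 1 := by
      have h4 : |(j : ℝ)| = d := by exact_mod_cast h2
      have h5 : (j : ℝ) ^ 2 = (d : ℝ) ^ 2 := by rw [← sq_abs, h4]
      rw [div_pow, h5, div_self (pow_ne_zero 2 hd0)]
    unfold Gx
    rw [h3]
    ring
  · rfl

theorem gg_mono {d : ℕ} (hd : 1 ≤ d) {j k : ℤ} (h : |j| ≤ |k|) : gg d k ≤ gg d j := by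
  have hd0 : (0 : ℝ) < d := by exact_mod_cast hd
  have hsq : ∀ i : ℤ, |i| ≤ (d : ℤ) → ((i : ℝ) / d) ^ 2 ≤ 1 := by
    intro i hi
    have h4 : |(i : ℝ)| ≤ d := by exact_mod_cast hi
    rw [div_pow, div_le_one (by positivity), ← sq_abs]
    exact pow_le_pow_left₀ (abs_nonneg _) h4 2
  have hnn : ∀ i : ℤ, 0 ≤ gg d i := by
    intro i
    unfold gg
    split_ifs with h1
    · unfold Gx
      have := hsq i h1
      have h5 : 0 ≤ 1 - ((i : ℝ) / d) ^ 2 / 2 := by linarith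
      positivity
    · exact le_rfl
  by_cases hk : |k| ≤ (d : ℤ)
  · have hj : |j| ≤ (d : ℤ) := h.trans hk
    have e1 : gg d k = Gx ((k : ℝ) / d) := if_pos hk
    have e2 : gg d j = Gx ((j : ℝ) / d) := if_pos hj
    rw [e1, e2]
    have h1 : ((j : ℝ) / d) ^ 2 ≤ ((k : ℝ) / d) ^ 2 := by
      rw [div_pow, div_pow]
      refine div_le_div_of_nonneg_right ?_ (by positivity)
      rw [← sq_abs (j : ℝ), ← sq_abs (k : ℝ)]
      have : |(j : ℝ)| ≤ |(k : ℝ)| := by exact_mod_cast h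
      exact pow_le_pow_left₀ (abs_nonneg _) this 2
    have h2 := hsq k hk
    unfold Gx
    refine mul_le_mul ?_ (by linarith) (by linarith) (by positivity)
    exact pow_le_pow_left₀ (by linarith) (by linarith) 2
  · have e1 : gg d k = 0 := if_neg hk
    rw [e1]
    exact hnn j

theorem gg_nonneg {d : ℕ} (hd : 1 ≤ d) (j : ℤ) : 0 ≤ gg d j := by
  have h : gg d (|j| + d) ≤ gg d j := by
    refine gg_mono hd ?_
    rw [abs_of_nonneg (by positivity : (0 : ℤ) ≤ |j| + d)]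
    omega
  rwa [gg_zero hd (by rw [abs_of_nonneg (by positivity : (0 : ℤ) ≤ |j| + d)]; have := abs_nonneg j; omega)] at h

theorem gg_neg (d : ℕ) (j : ℤ) : gg d (-j) = gg d j := by
  unfold gg Gx
  rw [abs_neg]
  push_cast
  have : (-(j : ℝ) / d) ^ 2 = ((j : ℝ) / d) ^ 2 := by rw [neg_div, neg_sq]
  rw [this]

/-- the transformed sequence -/
noncomputable def hh (d : ℕ) (k : ℤ) : ℝ :=
  (gg d (k + 1) + gg d (k - 1)) / 2 - Real.cos (cc / d) * gg d k

/-- the coefficients for integers -/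
noncomputable def AA (d : ℕ) (m : ℤ) : ℝ := ∑ j ∈ Icc (-(d : ℤ)) d, gg d j * hh d (j + m)

theorem aa_eq (d m : ℕ) : aa d m = AA d m := rfl

theorem hh_zero {d : ℕ} (hd : 1 ≤ d) {k : ℤ} (h : (d : ℤ) < |k|) : hh d k = 0 := by
  unfold hh
  have h1 : (d : ℤ) ≤ |k + 1| := by
    have := abs_sub (k + 1) 1
    simp at this
    omega
  have h2 : (d : ℤ) ≤ |k - 1| := by
    have := abs_add_le (k - 1) 1
    simp at this
    omega
  rw [gg_zero hd h1, gg_zero hd h2, gg_zero hd h.le]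
  ring

theorem hh_neg (d : ℕ) (k : ℤ) : hh d (-k) = hh d k := by
  unfold hh
  have e1 : -k + 1 = -(k - 1) := by ring
  have e2 : -k - 1 = -(k + 1) := by ring
  rw [e1, e2, gg_neg, gg_neg, gg_neg]
  ring

theorem AA_neg (d : ℕ) (m : ℤ) : AA d (-m) = AA d m := by
  unfold AA
  refine Finset.sum_nbij' (fun j => -j) (fun j => -j) ?_ ?_ ?_ ?_ ?_
  · intro j hj
    rw [mem_Icc] at hj ⊢
    omega
  · intro j hj
    rw [mem_Icc] at hj ⊢
    omega
  · intro j _
    simp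
  · intro j _
    simp
  · intro j _
    have e : -j + m = -(j + -m) := by ring
    rw [gg_neg, e, hh_neg]

theorem sum_even (f : ℤ → ℝ) (hf : ∀ m, f (-m) = f m) (N : ℕ) :
    ∑ m ∈ Icc (-(N : ℤ)) N, f m = f 0 + 2 * ∑ m ∈ Icc 1 N, f (m : ℤ) := by
  induction N with
  | zero => simp
  | succ N ih =>
    have e : Icc (-((N + 1 : ℕ) : ℤ)) ((N + 1 : ℕ) : ℤ) =
        insert (-((N + 1 : ℕ) : ℤ)) (insert (((N + 1 : ℕ) : ℤ)) (Icc (-(N : ℤ)) N)) := by
      ext x
      simp only [mem_insert, mem_Icc]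
      push_cast
      omega
    rw [e, sum_insert, sum_insert, ih, hf, Finset.sum_Icc_succ_top (by omega)]
    · ring
    · simp only [mem_Icc]
      push_cast
      omega
    · simp only [mem_insert, mem_Icc]
      push_cast
      omega

theorem norm_F (d : ℕ) (θ : ℝ) :
    ‖∑ j ∈ Icc (-(d : ℤ)) d, (gg d j : ℂ) * Complex.exp (Complex.I * (j : ℂ) * θ)‖ ^ 2 =
      ∑ j ∈ Icc (-(d : ℤ)) d, gg d j * ∑ k ∈ Icc (-(d : ℤ)) d, gg d k * Real.cos ((k - j) * θ) := by
  have e : ∀ j : ℤ, (gg d j : ℂ) * Complex.exp (Complex.I * (j : ℂ) * θ) =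
      ((gg d j * Real.cos (j * θ) : ℝ) : ℂ) + ((gg d j * Real.sin (j * θ) : ℝ) : ℂ) * Complex.I := by
    intro j
    have : Complex.I * (j : ℂ) * θ = ((j * θ : ℝ) : ℂ) * Complex.I := by
      push_cast
      ring
    rw [this, Complex.exp_mul_I, ← Complex.ofReal_cos, ← Complex.ofReal_sin]
    push_cast
    ring
  have e2 : ∑ j ∈ Icc (-(d : ℤ)) d, (gg d j : ℂ) * Complex.exp (Complex.I * (j : ℂ) * θ) =
      ((∑ j ∈ Icc (-(d : ℤ)) d, gg d j * Real.cos (j * θ) : ℝ) : ℂ) +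
        ((∑ j ∈ Icc (-(d : ℤ)) d, gg d j * Real.sin (j * θ) : ℝ) : ℂ) * Complex.I := by
    rw [sum_congr rfl fun j _ => e j, sum_add_distrib, ← sum_mul]
    push_cast
    rfl
  rw [e2, Complex.sq_norm, Complex.normSq_add_mul_I, sq, sq, sum_mul_sum, sum_mul_sum, ← sum_add_distrib]
  refine sum_congr rfl fun j _ => ?_
  rw [← sum_add_distrib, mul_sum]
  refine sum_congr rfl fun k _ => ?_
  rw [sub_mul, Real.cos_sub]
  ring

theorem inner_sum {d : ℕ} (hd : 1 ≤ d) (θ : ℝ) (j : ℤ) :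
    ∑ k ∈ Icc (-(d : ℤ)) d, hh d k * Real.cos ((k - j) * θ) =
      (Real.cos θ - Real.cos (cc / d)) * ∑ k ∈ Icc (-(d : ℤ)) d, gg d k * Real.cos ((k - j) * θ) := by
  have s1 : ∑ k ∈ Icc (-(d : ℤ)) d, gg d (k + 1) * Real.cos ((k - j) * θ) =
      ∑ k ∈ Icc (-(d : ℤ)) d, gg d k * Real.cos ((k - 1 - j) * θ) := by
    have := sum_shift (fun k => gg d k * Real.cos ((k - 1 - j) * θ)) (d - 1) d d 1
      (fun k hk => by rw [gg_zero hd (by omega), zero_mul]) (by simp) (by omega)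
    rw [← this]
    refine sum_congr rfl fun k _ => ?_
    push_cast
    congr 3
    ring
  have s2 : ∑ k ∈ Icc (-(d : ℤ)) d, gg d (k - 1) * Real.cos ((k - j) * θ) =
      ∑ k ∈ Icc (-(d : ℤ)) d, gg d k * Real.cos ((k + 1 - j) * θ) := by
    have := sum_shift (fun k => gg d k * Real.cos ((k + 1 - j) * θ)) (d - 1) d d (-1)
      (fun k hk => by rw [gg_zero hd (by omega), zero_mul]) (by simp) (by omega)
    rw [← this]
    refine sum_congr rfl fun k _ => ?_
    push_cast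
    have e1 : k + -1 = k - 1 := by ring
    rw [e1]
    congr 3
    ring
  have e : ∀ k : ℤ, hh d k * Real.cos ((k - j) * θ) =
      (gg d (k + 1) * Real.cos ((k - j) * θ) + gg d (k - 1) * Real.cos ((k - j) * θ)) / 2 -
        Real.cos (cc / d) * (gg d k * Real.cos ((k - j) * θ)) := by
    intro k
    unfold hh
    ring
  rw [sum_congr rfl fun k _ => e k, sum_sub_distrib, ← sum_div, sum_add_distrib, s1, s2, ← sum_add_distrib,
    ← mul_sum, sub_mul]
  congr 1
  rw [sum_div, mul_sum]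
  refine sum_congr rfl fun k _ => ?_
  have e1 : ((k : ℝ) - 1 - j) * θ = (k - j) * θ - θ := by ring
  have e2 : ((k : ℝ) + 1 - j) * θ = (k - j) * θ + θ := by ring
  rw [e1, e2, Real.cos_sub, Real.cos_add]
  ring

/-- (K1) -/
theorem mainK1 : S_K1 := by
  intro d hd θ
  rw [norm_F]
  have h1 := sum_even (fun m => AA d m * Real.cos (m * θ)) (fun m => by
    rw [AA_neg]
    push_cast
    rw [neg_mul, Real.cos_neg]) (2 * d)
  have h2 : aa d 0 + 2 * ∑ m ∈ Icc 1 (2 * d), aa d m * Real.cos (m * θ) =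
      AA d 0 * Real.cos (((0 : ℤ) : ℝ) * θ) +
        2 * ∑ m ∈ Icc 1 (2 * d), AA d (m : ℤ) * Real.cos (((m : ℤ) : ℝ) * θ) := by
    have e0 : aa d 0 = AA d 0 := rfl
    rw [e0]
    simp only [aa_eq, Int.cast_zero, zero_mul, Real.cos_zero, mul_one, Int.cast_natCast]
  rw [h2, ← h1]
  unfold AA
  simp only [sum_mul]
  rw [sum_comm, mul_sum]
  refine sum_congr rfl fun j hj => ?_
  have hj' : |j| ≤ (d : ℤ) := abs_le.mpr (mem_Icc.mp hj)
  have h3 := sum_shift (fun k => hh d k * Real.cos ((k - j) * θ)) d (2 * d : ℕ) d j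
    (fun k hk => by rw [hh_zero hd hk, zero_mul]) (by push_cast; omega) le_rfl
  calc ∑ m ∈ Icc (-((2 * d : ℕ) : ℤ)) ((2 * d : ℕ) : ℤ), gg d j * hh d (j + m) * Real.cos (m * θ) =
      gg d j * ∑ m ∈ Icc (-((2 * d : ℕ) : ℤ)) ((2 * d : ℕ) : ℤ),
        hh d (m + j) * Real.cos ((((m + j : ℤ) : ℝ) - j) * θ) := by
        rw [mul_sum]
        refine sum_congr rfl fun m _ => ?_
        rw [mul_assoc, add_comm j m]
        push_cast
        congr 4
        ring
    _ = gg d j * ((Real.cos θ - Real.cos (cc / d)) *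
          ∑ k ∈ Icc (-(d : ℤ)) d, gg d k * Real.cos ((k - j) * θ)) := by
        rw [h3, inner_sum hd]
    _ = _ := by ring

/-- (K2) -/
theorem mainK2 : S_K2 := by
  intro d hd m hm
  have h1 : ∀ j : ℤ, gg d j * ((gg d (j + m + 1) + gg d (j + m - 1)) / 2 - gg d (j + m)) ≤
      gg d j * ((gg d (j + m + 1) + gg d (j + m - 1)) / 2 - Real.cos (cc / d) * gg d (j + m)) := by
    intro j
    refine mul_le_mul_of_nonneg_left ?_ (gg_nonneg hd j)
    have := mul_le_mul_of_nonneg_right (Real.cos_le_one (cc / d)) (gg_nonneg hd (j + m))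
    linarith
  refine le_trans ?_ (sum_le_sum fun j _ => h1 j)
  have s0 : ∑ j ∈ Icc (-(d : ℤ)) d, gg d j * ((gg d (j + m + 1) + gg d (j + m - 1)) / 2 - gg d (j + m)) =
      ∑ j ∈ Icc (-((d : ℤ) + 1)) (d + 1), gg d (j + 0) * ((gg d (j + 0 + m + 1) + gg d (j + 0 + m - 1)) / 2 -
        gg d (j + 0 + m)) :=
    (sum_shift (fun j => gg d j * ((gg d (j + m + 1) + gg d (j + m - 1)) / 2 - gg d (j + m))) d (d + 1) d 0
      (fun k hk => by rw [gg_zero hd hk.le, zero_mul]) (by simp) le_rfl).symm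
  have s1 : ∑ j ∈ Icc (-((d : ℤ) + 1)) (d + 1), gg d (j + 1) * (gg d (j + 1 + m) - gg d (j + 1 + m - 1)) =
      ∑ j ∈ Icc (-((d : ℤ) + 1)) (d + 1), gg d j * (gg d (j + m) - gg d (j + m - 1)) :=
    sum_shift (fun j => gg d j * (gg d (j + m) - gg d (j + m - 1))) d (d + 1) (d + 1) 1
      (fun k hk => by rw [gg_zero hd hk.le, zero_mul]) (by simp) (by omega)
  have s2 : ∑ j ∈ Icc (-((d : ℤ) + 1)) (d + 1), gg d (j + 0) *
        ((gg d (j + 0 + m + 1) + gg d (j + 0 + m - 1)) / 2 - gg d (j + 0 + m)) =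
      ∑ j ∈ Icc (-((d : ℤ) + 1)) (d + 1), -((gg d (j + 1) - gg d j) * (gg d (j + m + 1) - gg d (j + m))) / 2 := by
    have e1 : ∑ j ∈ Icc (-((d : ℤ) + 1)) (d + 1), gg d (j + 0) *
        ((gg d (j + 0 + m + 1) + gg d (j + 0 + m - 1)) / 2 - gg d (j + 0 + m)) =
        (∑ j ∈ Icc (-((d : ℤ) + 1)) (d + 1), gg d j * (gg d (j + m + 1) - gg d (j + m)) -
          ∑ j ∈ Icc (-((d : ℤ) + 1)) (d + 1), gg d j * (gg d (j + m) - gg d (j + m - 1))) / 2 := by
      rw [← sum_sub_distrib, sum_div]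
      refine sum_congr rfl fun j _ => ?_
      rw [add_zero]
      ring
    rw [e1, ← s1, ← sum_sub_distrib, sum_div]
    refine sum_congr rfl fun j _ => ?_
    have e2 : j + 1 + (m : ℤ) = j + m + 1 := by ring
    have e3 : j + 1 + (m : ℤ) - 1 = j + m := by ring
    rw [e3, e2]
    ring
  rw [s0, s2]
  refine sum_nonneg fun j _ => ?_
  have hm' : (d : ℤ) ≤ m := by exact_mod_cast hm
  have key : (gg d (j + 1) - gg d j) * (gg d (j + m + 1) - gg d (j + m)) ≤ 0 := by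
    rcases le_or_gt 0 j with hj | hj
    · have e1 : gg d (j + m) = 0 := gg_zero hd (by rw [abs_of_nonneg (by omega)]; omega)
      have e2 : gg d (j + m + 1) = 0 := gg_zero hd (by rw [abs_of_nonneg (by omega)]; omega)
      rw [e1, e2]
      simp
    · rcases le_or_gt 0 (j + (m : ℤ)) with hjm | hjm
      · have e1 : gg d j ≤ gg d (j + 1) := gg_mono hd (by
          rw [abs_of_nonpos (by omega : j + 1 ≤ 0), abs_of_neg hj]
          omega)
        have e2 : gg d (j + m + 1) ≤ gg d (j + m) := gg_mono hd (by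
          rw [abs_of_nonneg hjm, abs_of_nonneg (by omega : 0 ≤ j + (m : ℤ) + 1)]
          omega)
        exact mul_nonpos_of_nonneg_of_nonpos (by linarith) (by linarith)
      · have e1 : gg d j = 0 := gg_zero hd (by rw [abs_of_neg hj]; omega)
        have e2 : gg d (j + 1) = 0 := gg_zero hd (by rw [abs_of_nonpos (by omega : j + 1 ≤ 0)]; omega)
        rw [e1, e2]
        simp
  linarith

end Pool.Agent.H261.ZG
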